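import Mathlib

/-!
MP_0863b8_nt, RECURSION block: definitions and the statement of the recursion theorem.
See `RECURSION.md` in this folder for the mathematics.
-/

set_option autoImplicit false

namespace Pool.Agent.MP_0863b8.R

open MeasureTheory

/-- all prime factors of `v` are `< q` -/
def Sm (q v : ℕ) : Prop := ∀ p : ℕ, p.Prime → p ∣ v → p < q

/-- the exponents of `m` at the primes `> q` -/
noncomputable def hi (q m : ℕ) : ℕ →₀ ℕ := m.factorization.filter (fun p => q < p)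

/-- the kept set of `m` (a `1`-periodic subset of the line): target `δ`, half width `μ m`,
killed classes `K m v r` (the integer `k` is killed if `k ≡ r [v]`), but only the classes with
modulus `v` composed of primes `< q` are used. -/
def Bs (δ : ℝ) (μ : ℕ → ℝ) (K : ℕ → ℕ → ℤ → Prop) (q m : ℕ) : Set ℝ :=
  {t | ∃ k : ℤ, |(m : ℝ) * t - δ - k| < μ m ∧
    ∀ (v : ℕ) (r : ℤ), K m v r → Sm q v → ¬ (k ≡ r [ZMOD (v : ℤ)])}

/-- overlap of two kept sets, over one period -/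
noncomputable def ov (δ : ℝ) (μ : ℕ → ℝ) (K : ℕ → ℕ → ℤ → Prop) (q n m : ℕ) : ℝ :=
  (volume (Bs δ μ K q n ∩ Bs δ μ K q m ∩ Set.Ico (0 : ℝ) 1)).toReal

/-- the energy of a set of indices -/
noncomputable def En (δ : ℝ) (μ : ℕ → ℝ) (K : ℕ → ℕ → ℤ → Prop) (q : ℕ) (N : Finset ℕ) : ℝ :=
  ∑ n ∈ N, ∑ m ∈ N, ov δ μ K q n m

/-- the mass of a set of indices -/
noncomputable def mass (μ : ℕ → ℝ) (N : Finset ℕ) : ℝ := ∑ n ∈ N, 2 * μ n

/-- `n` and `m` agree at all primes `≥ q` -/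
def Ag (q n m : ℕ) : Prop := ∀ r : ℕ, r.Prime → q ≤ r → n.factorization r = m.factorization r

/-- relevant pairs: `n` is above `m` at the relevant prime `p m` of `m` -/
def Rel (p : ℕ → ℕ) (n m : ℕ) : Prop :=
  hi (p m) n = hi (p m) m ∧ n.factorization (p m) = m.factorization (p m) + 1

/-- the key of `m`: relevant prime, part above the relevant prime, exponent at it -/
noncomputable def key (p : ℕ → ℕ) (m : ℕ) : ℕ × (ℕ →₀ ℕ) × ℕ :=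
  (p m, hi (p m) m, m.factorization (p m))

open Classical in
/-- the vertices with the key of `m0` -/
noncomputable def Lset (p : ℕ → ℕ) (S : Finset ℕ) (m0 : ℕ) : Finset ℕ :=
  S.filter (fun m => key p m = key p m0)

/-- the factor removed in the new space -/
noncomputable def fac (p : ℕ → ℕ) (m0 : ℕ) : ℕ := (p m0) ^ (m0.factorization (p m0))

/-- the masses of the new space: `m' = m / fac` gets the mass `q μ(m)` -/
noncomputable def muY (p : ℕ → ℕ) (μ : ℕ → ℝ) (m0 : ℕ) : ℕ → ℝ :=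
  fun m' => (p m0 : ℝ) * μ (fac p m0 * m')

/-- the vertices of the new space -/
noncomputable def SY (p : ℕ → ℕ) (S : Finset ℕ) (m0 : ℕ) : Finset ℕ :=
  (Lset p S m0).image (fun m => m / fac p m0)

/-- **Good systems.**  `p m` is the relevant prime of the vertex `m` (`0` = none), `e` is the
exceptional part of the overlaps, `K'` gives the kills of the new spaces. -/
inductive OK (P0 : ℕ) (c Cr C1 : ℝ) :
    ℝ → (ℕ → ℝ) → Finset ℕ → (ℕ → ℕ → ℤ → Prop) → Prop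
  | mk (δ : ℝ) (μ : ℕ → ℝ) (S : Finset ℕ) (K : ℕ → ℕ → ℤ → Prop)
      (p : ℕ → ℕ) (e : ℕ → ℕ → ℝ) (K' : ℕ → ℕ → ℕ → ℤ → Prop)
      (hS : ∀ m ∈ S, 0 < m ∧ 0 < μ m ∧ μ m < 1 / 2)
      (hK : ∀ m ∈ S, ∀ v r, K m v r → v ∣ m)
      (hp : ∀ m ∈ S, p m = 0 ∨ ((p m).Prime ∧ P0 < p m))
      (he : ∀ n m, 0 ≤ e n m)
      (hsum : ∑ n ∈ S, ∑ m ∈ S, e n m ≤ C1 * (1 + mass μ S) ^ (2 * c) * mass μ S)
      (hpair : ∀ q, ∀ n ∈ S, ∀ m ∈ S, Ag q n m → ¬ Rel p n m → ¬ Rel p m n →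
        ov δ μ K q n m ≤ Cr * ((2 * μ n) * (2 * μ m)) + e n m)
      (hmu : ∀ n0 ∈ S, ∀ m0 ∈ S, Rel p n0 m0 → ∀ m ∈ Lset p S m0, (p m0 : ℝ) * μ m < 1 / 2)
      (hK' : ∀ n0 ∈ S, ∀ m0 ∈ S, Rel p n0 m0 → ∀ m ∈ Lset p S m0, ∀ v r,
        K' m0 (m / fac p m0) v r → Sm (p m0) v →
          ∃ r0, K m v r0 ∧ r ≡ (p m0 : ℤ) * r0 [ZMOD (v : ℤ)])
      (hsub : ∀ n0 ∈ S, ∀ m0 ∈ S, Rel p n0 m0 →
        OK P0 c Cr C1 ((p m0 : ℝ) * δ) (muY p μ m0) (SY p S m0) (K' m0)) :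
      OK P0 c Cr C1 δ μ S K

/-- **The recursion theorem.** -/
def RecStmt : Prop :=
  ∀ c : ℝ, 0 ≤ c → c < 1 / 2 → ∃ P0 : ℕ, ∀ P : ℕ, P0 ≤ P →
    ∀ Cr C1 B : ℝ, 0 ≤ Cr → 0 ≤ C1 → 0 ≤ B → ∃ C : ℝ, 0 < C ∧
    ∀ (δ : ℝ) (μ : ℕ → ℝ) (S : Finset ℕ) (K : ℕ → ℕ → ℤ → Prop), OK P c Cr C1 δ μ S K →
      (∀ n ∈ S, ∑ r ∈ n.primeFactors.filter (fun r => P < r), (1 : ℝ) / r ≤ B) →
      ∀ q : ℕ, (∀ n ∈ S, ∀ m ∈ S, Ag q n m) →
        En δ μ K q S ≤ C * (mass μ S ^ 2 + (1 + mass μ S) ^ (2 * c) * mass μ S)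

end Pool.Agent.MP_0863b8.R
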